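import Pool.Agent.H30.PF.Targets

/-!
Module `E1` of the board pf_modules.
-/

set_option autoImplicit false

open Finset Real Pool.Agent.H30.PF

namespace Pool.Agent.H74.PF

theorem Ioc_zero_eq (v : ℕ) : Ioc 0 v = Icc 1 v := by
  ext q
  simp only [mem_Ioc, mem_Icc]
  omega

theorem e1 (hGM : T_GM) (hM8 : T_M8) : T_E1 := by
  intro z hz1 hz3
  obtain ⟨C, hC, hG⟩ := hGM z hz1
  obtain ⟨C8, h8⟩ := hM8
  refine ⟨C * exp (4 * |C8|), by positivity, ?_⟩
  intro x v J hv hvx hJ α hα hαJ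
  have hx3 : 3 ≤ x := le_trans hv hvx
  have hlogx : 1 ≤ log (x : ℝ) := by
    rw [Real.le_log_iff_exp_le (by positivity)]
    have h3 : (3 : ℝ) ≤ x := by exact_mod_cast hx3
    exact le_trans (le_of_lt Real.exp_one_lt_three) h3
  have hlx0 : 0 < log (x : ℝ) := by linarith
  set L := log (log (x : ℝ)) with hL
  have hL0 : 0 ≤ L := Real.log_nonneg hlogx
  have hz0 : 0 < z := by linarith
  set S := (Icc 3 x).filter (fun p => p.Prime ∧ α * L ≤ (Om 0 v (p ^ 2 - 2) : ℝ)) with hS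
  have hsub : S ⊆ (Icc 3 x).filter Nat.Prime := by
    intro p hp
    rw [hS, mem_filter] at hp
    exact mem_filter.2 ⟨hp.1, hp.2.1⟩
  have hmain := hG x 0 v J (by omega) hJ (by
    intro q hq _ _ hS8
    have h7 : 7 ≤ q := by
      have h2 := hq.two_le
      have h1 : q % 8 = 1 ∨ q % 8 = 7 := hS8
      omega
    have h7' : (7 : ℝ) ≤ q := by exact_mod_cast h7
    linarith)
  have hlow : (S.card : ℝ) * z ^ (α * L) ≤
      ∑ p ∈ (Icc 3 x).filter Nat.Prime, z ^ (min (Om 0 v (p ^ 2 - 2)) J) := by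
    have h1 : (S.card : ℝ) * z ^ (α * L) ≤ ∑ p ∈ S, z ^ (min (Om 0 v (p ^ 2 - 2)) J) := by
      rw [← nsmul_eq_mul]
      refine Finset.card_nsmul_le_sum _ _ _ fun p hp => ?_
      rw [hS, mem_filter] at hp
      rw [← Real.rpow_natCast]
      refine Real.rpow_le_rpow_of_exponent_le hz1 ?_
      rw [Nat.cast_min]
      exact le_min hp.2.2 hαJ
    refine le_trans h1 (Finset.sum_le_sum_of_subset_of_nonneg hsub fun p _ _ => ?_)
    positivity
  have hM : 2 * (z - 1) * ∑ q ∈ (Ioc 0 v).filter (fun q => q.Prime ∧ S8 q), (1 : ℝ) / q ≤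
      (z - 1) * L + 4 * |C8| := by
    rw [Ioc_zero_eq]
    have h := h8 v hv
    have hlv : log (log (v : ℝ)) ≤ L := by
      have hv3 : (3 : ℝ) ≤ v := by exact_mod_cast hv
      refine Real.log_le_log (Real.log_pos (by linarith)) ?_
      exact Real.log_le_log (by linarith) (by exact_mod_cast hvx)
    have hz : 0 ≤ 2 * (z - 1) := by linarith
    have h9 : C8 ≤ |C8| := le_abs_self _
    have h10 : 0 ≤ |C8| := abs_nonneg _
    calc 2 * (z - 1) * ∑ q ∈ (Icc 1 v).filter (fun q => q.Prime ∧ S8 q), (1 : ℝ) / q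
        ≤ 2 * (z - 1) * (1 / 2 * L + |C8|) := by
          refine mul_le_mul_of_nonneg_left ?_ hz
          linarith
      _ = (z - 1) * L + 2 * (z - 1) * |C8| := by ring
      _ ≤ (z - 1) * L + 4 * |C8| := by
          have : 2 * (z - 1) * |C8| ≤ 4 * |C8| := mul_le_mul_of_nonneg_right (by linarith) h10
          linarith
  have hexp : exp (2 * (z - 1) * ∑ q ∈ (Ioc 0 v).filter (fun q => q.Prime ∧ S8 q), (1 : ℝ) / q) ≤
      (log x) ^ (z - 1) * exp (4 * |C8|) := by
    rw [Real.rpow_def_of_pos hlx0, ← Real.exp_add]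
    refine Real.exp_le_exp.2 (le_trans hM ?_)
    rw [← hL]
    linarith [mul_comm L (z - 1)]
  have hzL : z ^ (α * L) = (log x) ^ (α * log z) := by
    rw [Real.rpow_def_of_pos hz0, Real.rpow_def_of_pos hlx0, ← hL]
    ring_nf
  have hpos : 0 < (log (x : ℝ)) ^ (α * log z) := Real.rpow_pos_of_pos hlx0 _
  have hfin : (S.card : ℝ) * (log x) ^ (α * log z) ≤
      C * x / log x * ((log x) ^ (z - 1) * exp (4 * |C8|)) := by
    rw [← hzL]
    refine le_trans hlow (le_trans hmain ?_)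
    exact mul_le_mul_of_nonneg_left hexp (by positivity)
  have hsplit : (log (x : ℝ)) ^ (z - 1 - α * log z) =
      (log x) ^ (z - 1) / (log x) ^ (α * log z) := by
    rw [Real.rpow_sub hlx0]
  rw [hsplit]
  rw [← le_div_iff₀ hpos] at hfin
  refine le_trans hfin (le_of_eq ?_)
  ring

end Pool.Agent.H74.PF
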