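import Pool.Agent.H30.PF.Targets

/-!
Module `E2` of the board pf_modules.
-/

set_option autoImplicit false

open Finset Real Pool.Agent.H30.PF

namespace Pool.Agent.H74.PF

/-- `y / log y` is at least `M` once `y ≥ (2 M)²`, `y ≥ 3` -/
theorem log_small (y M : ℝ) (hM : 0 ≤ M) (hy : 3 ≤ y) (hyM : (2 * M) ^ 2 ≤ y) :
    M * log y ≤ y := by
  have hy0 : 0 < y := by linarith
  have hs0 : 0 < √y := Real.sqrt_pos.2 hy0
  have hsq : √y * √y = y := Real.mul_self_sqrt hy0.le
  have h7 : log y ≤ 2 * √y := by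
    have h8 : log (√y) ≤ √y - 1 := Real.log_le_sub_one_of_pos hs0
    have h9 : log y = 2 * log (√y) := by
      conv_lhs => rw [← hsq]
      rw [Real.log_mul hs0.ne' hs0.ne']
      ring
    linarith
  have h10 : 2 * M ≤ √y := Real.le_sqrt_of_sq_le hyM
  calc M * log y ≤ M * (2 * √y) := mul_le_mul_of_nonneg_left h7 hM
    _ = 2 * M * √y := by ring
    _ ≤ √y * √y := mul_le_mul_of_nonneg_right h10 hs0.le
    _ = y := hsq

theorem e2 (hGM : T_GM) (hMR : T_MR) : T_E2 := by
  intro θ c B hθ hθc hB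
  have hc : 0 < c := lt_of_lt_of_le hθ hθc
  set z := exp (4 * (B + 1) / θ) with hz
  have hz1 : 1 ≤ z := Real.one_le_exp (by positivity)
  have hz0 : 0 < z := by linarith
  obtain ⟨C, hC, hG⟩ := hGM z hz1
  obtain ⟨CM, hM⟩ := hMR
  have hl2 : 0 < log (2 : ℝ) := Real.log_pos (by norm_num)
  set M := max (2 * log 2) (log (2 * z)) with hMdef
  have hM0 : 0 < M := lt_of_lt_of_le (by linarith) (le_max_left _ _)
  set Y := max 3 ((2 * (c * M)) ^ 2) with hYdef
  set K := 2 * (z - 1) * (log (2 * c / θ) + CM) with hK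
  refine ⟨C * exp K * z, ⌈exp Y⌉₊, fun x hx => ?_⟩
  have hxY : exp Y ≤ x := le_trans (Nat.le_ceil _) (by exact_mod_cast hx)
  have hx0 : 0 < (x : ℝ) := lt_of_lt_of_le (exp_pos _) hxY
  set y := log (x : ℝ) with hydef
  have hy : Y ≤ y := by
    rw [hydef, Real.le_log_iff_exp_le hx0]
    exact hxY
  have hy3 : 3 ≤ y := le_trans (le_max_left _ _) hy
  have hy0 : 0 < y := by linarith
  have hY3 : (3 : ℝ) ≤ Y := le_max_left _ _
  have hx1 : (1 : ℝ) ≤ x := le_trans (Real.one_le_exp (by linarith : (0:ℝ) ≤ Y)) hxY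
  have hx2 : 2 ≤ x := by
    by_contra h
    have h1 : x ≤ 1 := by omega
    have h2 : (x : ℝ) ≤ 1 := by exact_mod_cast h1
    have h3 : y ≤ 0 := Real.log_nonpos hx0.le h2
    linarith
  set L := log y with hLdef
  have hL1 : 1 ≤ L := by
    rw [hLdef, Real.le_log_iff_exp_le hy0]
    exact le_trans (le_of_lt Real.exp_one_lt_three) hy3
  have hL0 : 0 < L := by linarith
  have hcL : 0 < c * L := by positivity
  have hθL : 0 < θ * L := by positivity
  have hcML : c * M * L ≤ y :=
    log_small y (c * M) (by positivity) hy3 (le_trans (le_max_right _ _) hy)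
  have hMy : M ≤ y / (c * L) := by
    rw [le_div_iff₀ hcL]
    linarith
  set a := (x : ℝ) ^ (1 / (c * L)) with ha
  set b := (x : ℝ) ^ (1 / (θ * L)) with hb
  have haexp : a = exp (y / (c * L)) := by
    rw [ha, Real.rpow_def_of_pos hx0, ← hydef, mul_one_div]
  have hbexp : b = exp (y / (θ * L)) := by
    rw [hb, Real.rpow_def_of_pos hx0, ← hydef, mul_one_div]
  have hab : a ≤ b := by
    rw [haexp, hbexp]
    refine Real.exp_le_exp.2 ?_
    exact div_le_div_of_nonneg_left hy0.le hθL (mul_le_mul_of_nonneg_right hθc hL0.le)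
  have ha2z : 2 * z ≤ a := by
    rw [haexp]
    calc 2 * z = exp (log (2 * z)) := (Real.exp_log (by positivity)).symm
      _ ≤ exp (y / (c * L)) := Real.exp_le_exp.2 (le_trans (le_max_right _ _) hMy)
  have ha2 : 2 ≤ a := by linarith
  set v := ⌊a⌋₊ with hv
  set w := ⌊b⌋₊ with hw
  have hv2 : 2 ≤ v := Nat.le_floor (by exact_mod_cast ha2)
  have hvw : v ≤ w := Nat.floor_le_floor hab
  have hva : a < v + 1 := Nat.lt_floor_add_one a
  have hwb : (w : ℝ) ≤ b := Nat.floor_le (by linarith)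
  have hv0 : (0 : ℝ) < v := by exact_mod_cast (by omega : 0 < v)
  have hw0 : (0 : ℝ) < w := by exact_mod_cast (by omega : 0 < w)
  have hlogv : y / (c * L) / 2 ≤ log v := by
    have h1 : a / 2 ≤ v := by linarith
    have h2 : log (a / 2) ≤ log v := Real.log_le_log (by linarith) h1
    rw [Real.log_div (by linarith) (by norm_num), haexp, Real.log_exp] at h2
    have h3 : 2 * log 2 ≤ y / (c * L) := le_trans (le_max_left _ _) hMy
    linarith
  have hlogw : log w ≤ y / (θ * L) := by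
    have h2 : log (w : ℝ) ≤ log b := Real.log_le_log hw0 hwb
    rwa [hbexp, Real.log_exp] at h2
  have hlogv0 : 0 < log (v : ℝ) := Real.log_pos (by exact_mod_cast (by omega : 1 < v))
  have hratio : log w / log v ≤ 2 * c / θ := by
    rw [div_le_iff₀ hlogv0]
    have h4 : y / (θ * L) = 2 * c / θ * (y / (c * L) / 2) := by
      field_simp
    calc log w ≤ y / (θ * L) := hlogw
      _ = 2 * c / θ * (y / (c * L) / 2) := h4
      _ ≤ 2 * c / θ * log v := mul_le_mul_of_nonneg_left hlogv (by positivity)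
  have hlogw0 : 0 < log (w : ℝ) := Real.log_pos (by exact_mod_cast (by omega : 1 < w))
  set J := ⌊θ * L / 4⌋₊ with hJ
  have hJle : (J : ℝ) ≤ θ * L / 4 := Nat.floor_le (by positivity)
  have hJlt : θ * L / 4 < J + 1 := Nat.lt_floor_add_one _
  have hwJ : w ^ (4 * J) ≤ x := by
    have h1 : ((w : ℝ)) ^ (4 * J) ≤ x := by
      calc ((w : ℝ)) ^ (4 * J) ≤ b ^ (4 * J) := pow_le_pow_left₀ hw0.le hwb _
        _ = exp ((4 * J : ℕ) * (y / (θ * L))) := by rw [hbexp, ← Real.exp_nat_mul]
        _ ≤ exp y := by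
          refine Real.exp_le_exp.2 ?_
          rw [mul_div_assoc', div_le_iff₀ hθL]
          push_cast
          nlinarith
        _ = x := Real.exp_log hx0
    exact_mod_cast h1
  set S := (Icc 3 x).filter (fun p => p.Prime ∧ θ * L / 4 ≤ (Om v w (p ^ 2 - 2) : ℝ)) with hS
  have hsub : S ⊆ (Icc 3 x).filter Nat.Prime := by
    intro p hp
    rw [hS, mem_filter] at hp
    exact mem_filter.2 ⟨hp.1, hp.2.1⟩
  have hmain := hG x v w J hx2 hwJ (by
    intro q _ hq _ _
    have h1 : (v : ℝ) + 1 ≤ q := by exact_mod_cast hq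
    linarith)
  have hlow : (S.card : ℝ) * z ^ J ≤
      ∑ p ∈ (Icc 3 x).filter Nat.Prime, z ^ (min (Om v w (p ^ 2 - 2)) J) := by
    have h1 : (S.card : ℝ) * z ^ J ≤ ∑ p ∈ S, z ^ (min (Om v w (p ^ 2 - 2)) J) := by
      rw [← nsmul_eq_mul]
      refine Finset.card_nsmul_le_sum _ _ _ fun p hp => ?_
      rw [hS, mem_filter] at hp
      have h2 : J ≤ Om v w (p ^ 2 - 2) := by
        have h3 : (J : ℝ) ≤ (Om v w (p ^ 2 - 2) : ℝ) := le_trans hJle hp.2.2
        exact_mod_cast h3
      rw [min_eq_right h2]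
    refine le_trans h1 (Finset.sum_le_sum_of_subset_of_nonneg hsub fun p _ _ => ?_)
    positivity
  have hsum : ∑ q ∈ (Ioc v w).filter (fun q => q.Prime ∧ S8 q), (1 : ℝ) / q ≤
      log (2 * c / θ) + CM := by
    calc ∑ q ∈ (Ioc v w).filter (fun q => q.Prime ∧ S8 q), (1 : ℝ) / q
        ≤ ∑ q ∈ (Ioc v w).filter Nat.Prime, (1 : ℝ) / q := by
          refine Finset.sum_le_sum_of_subset_of_nonneg ?_ fun q _ _ => by positivity
          intro q hq
          rw [mem_filter] at hq
          exact mem_filter.2 ⟨hq.1, hq.2.1⟩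
      _ ≤ log (log w / log v) + CM := hM v w hv2 hvw
      _ ≤ log (2 * c / θ) + CM := by
          have := Real.log_le_log (div_pos hlogw0 hlogv0) hratio
          linarith
  have hexp : exp (2 * (z - 1) * ∑ q ∈ (Ioc v w).filter (fun q => q.Prime ∧ S8 q), (1 : ℝ) / q) ≤
      exp K := by
    refine Real.exp_le_exp.2 ?_
    exact mul_le_mul_of_nonneg_left hsum (by linarith)
  have hzJ : y ^ (B + 1) / z ≤ z ^ J := by
    rw [Real.rpow_def_of_pos hy0, ← hLdef, hz, ← Real.exp_sub, ← Real.exp_nat_mul]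
    refine Real.exp_le_exp.2 ?_
    have h1 : L * (B + 1) - 4 * (B + 1) / θ = (θ * L / 4 - 1) * (4 * (B + 1) / θ) := by
      field_simp
    rw [h1]
    refine mul_le_mul_of_nonneg_right (by linarith) (by positivity)
  have hyB : 0 < y ^ (B + 1) := Real.rpow_pos_of_pos hy0 _
  have hyB' : 0 < y ^ B := Real.rpow_pos_of_pos hy0 _
  have hyy : y ^ B ≤ y * y ^ (B + 1) := by
    rw [Real.rpow_add hy0, Real.rpow_one]
    have : y ^ B * 1 ≤ y ^ B * (y * y) := mul_le_mul_of_nonneg_left (by nlinarith) hyB'.le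
    calc y ^ B = y ^ B * 1 := by ring
      _ ≤ y ^ B * (y * y) := this
      _ = y * (y ^ B * y) := by ring
  have hfin : (S.card : ℝ) * (y ^ (B + 1) / z) ≤ C * x / y * exp K := by
    refine le_trans (mul_le_mul_of_nonneg_left hzJ (by positivity)) ?_
    refine le_trans hlow (le_trans hmain ?_)
    exact mul_le_mul_of_nonneg_left hexp (by positivity)
  rw [← le_div_iff₀ (by positivity)] at hfin
  refine le_trans hfin ?_
  have h5 : C * x / y * exp K / (y ^ (B + 1) / z) = C * exp K * z * x / (y * y ^ (B + 1)) := by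
    field_simp
  rw [h5]
  exact div_le_div_of_nonneg_left (by positivity) hyB' hyy

end Pool.Agent.H74.PF
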