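import Pool.Agent.H30.PF.Targets

/-!
Module `PN` of the board pf_modules.
-/

set_option autoImplicit false

open Finset Real Pool.Agent.H30.PF

namespace Pool.Agent.H74.PF

theorem primeCounting_nth (n : ℕ) : Nat.primeCounting (Nat.nth Nat.Prime n) = n + 1 := by
  have h := Nat.primeCounting'_nth_eq n
  have hp : (Nat.nth Nat.Prime n).Prime := Nat.prime_nth_prime n
  unfold Nat.primeCounting
  unfold Nat.primeCounting' at h ⊢
  rw [Nat.count_succ, h, if_pos hp]

theorem pn : T_PN := by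
  refine ⟨24, by norm_num, fun n hn => ?_⟩
  set p := pr n with hp
  have hpn : p = Nat.nth Nat.Prime (n - 1) := rfl
  have hprime : p.Prime := Nat.prime_nth_prime _
  have hpi : Nat.primeCounting p = n := by
    rw [hpn, primeCounting_nth]
    omega
  have hp2 : 2 ≤ p := hprime.two_le
  have hp1 : (2 : ℝ) ≤ p := by exact_mod_cast hp2
  have hlp : 0 < log (p : ℝ) := Real.log_pos (by linarith)
  have hn2 : (2 : ℝ) ≤ n := by exact_mod_cast hn
  have h1 := Chebyshev.pi_ge p
  rw [hpi, div_le_iff₀ hlp] at h1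
  have h2 : log ((p : ℝ) + 1) ≤ n * log p := by
    have h3 : log ((p : ℝ) + 1) ≤ log ((p : ℝ) ^ 2) := by
      refine Real.log_le_log (by linarith) (by nlinarith)
    rw [Real.log_pow] at h3
    push_cast at h3
    nlinarith
  have hl2 : (0.6931471803 : ℝ) < log 2 := Real.log_two_gt_d9
  have h4 : (p : ℝ) ≤ 3 * n * log p := by
    have h5 : (p : ℝ) * log 2 ≤ 2 * n * log p := by linarith
    have h6 : (p : ℝ) * (2 / 3) ≤ p * log 2 :=
      mul_le_mul_of_nonneg_left (by linarith) (by linarith)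
    linarith
  have hs0 : 0 < √(p : ℝ) := Real.sqrt_pos.2 (by linarith)
  have hsq : √(p : ℝ) * √(p : ℝ) = p := Real.mul_self_sqrt (by linarith)
  have h7 : log (p : ℝ) ≤ 2 * √(p : ℝ) := by
    have h8 : log (√(p : ℝ)) ≤ √(p : ℝ) - 1 := Real.log_le_sub_one_of_pos hs0
    have h9 : log (p : ℝ) = 2 * log (√(p : ℝ)) := by
      conv_lhs => rw [← hsq]
      rw [Real.log_mul hs0.ne' hs0.ne']
      ring
    linarith
  have h10 : √(p : ℝ) ≤ 6 * n := by
    have h11 : √(p : ℝ) * √(p : ℝ) ≤ 6 * n * √(p : ℝ) := by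
      rw [hsq]
      have : 3 * (n : ℝ) * log p ≤ 3 * n * (2 * √(p : ℝ)) :=
        mul_le_mul_of_nonneg_left h7 (by linarith)
      linarith
    exact le_of_mul_le_mul_right h11 hs0
  have h12 : (p : ℝ) ≤ (n : ℝ) ^ 8 := by
    have h13 : (p : ℝ) ≤ 36 * (n : ℝ) ^ 2 := by
      rw [← hsq]
      nlinarith
    have h14 : (64 : ℝ) ≤ (n : ℝ) ^ 6 := by
      calc (64 : ℝ) = 2 ^ 6 := by norm_num
        _ ≤ (n : ℝ) ^ 6 := pow_le_pow_left₀ (by norm_num) hn2 6
    have h15 : 0 ≤ (n : ℝ) ^ 2 := by positivity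
    nlinarith
  have h16 : log (p : ℝ) ≤ 8 * log n := by
    have h17 := Real.log_le_log (by linarith) h12
    rw [Real.log_pow] at h17
    exact_mod_cast h17
  calc (p : ℝ) ≤ 3 * n * log p := h4
    _ ≤ 3 * n * (8 * log n) := mul_le_mul_of_nonneg_left h16 (by linarith)
    _ = 24 * n * log n := by ring

end Pool.Agent.H74.PF
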