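import Pool.Agent.H93.PF.TargetsB

/-!
# Power-free shifts (MP_32ebde_an): row TAU

The pieces of a gap.
-/

set_option autoImplicit false

open Pool.Agent.H93.PF

namespace Pool.Agent.H74.PF

theorem tau_succ (L r i : ℕ) :
    tau L r (i + 1) = tau L r i + L ∨ tau L r (i + 1) = tau L r i + (L + 1) := by
  unfold tau
  rw [Nat.add_mul, one_mul]
  rcases Nat.lt_or_ge i (nu L r) with h | h
  · left
    have h1 : i + 1 - nu L r = 0 := by omega
    have h2 : i - nu L r = 0 := by omega
    rw [h1, h2]
    ring
  · right
    have h1 : i + 1 - nu L r = (i - nu L r) + 1 := by omega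
    rw [h1]
    ring

theorem pf_TAU : T_TAU := by
  intro L r hL hr
  have hL0 : 0 < L := by omega
  have hr4 : 0 < r := by nlinarith
  have hv : r % L < L := Nat.mod_lt _ hL0
  have hdm : L * (r / L) + r % L = r := Nat.div_add_mod r L
  have hvr : r % L * (L + 1) ≤ r := by
    obtain ⟨s, rfl⟩ : ∃ s, L = s + 1 := ⟨L - 1, by omega⟩
    have h1 : r % (s + 1) ≤ s := by omega
    have h2 : r % (s + 1) * (s + 1 + 1) ≤ s * (s + 1 + 1) := Nat.mul_le_mul_right _ h1
    nlinarith
  have hq : r % L ≤ r / L := by
    by_contra hcon
    push Not at hcon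
    have h1 : r / L + 1 ≤ r % L := hcon
    have h2 : (r / L + 1) * (L + 1) ≤ r % L * (L + 1) := Nat.mul_le_mul_right _ h1
    nlinarith
  have hnu : nu L r = r / L - r % L := by
    unfold nu
    obtain ⟨t, ht⟩ := Nat.exists_eq_add_of_le hq
    have h1 : r - r % L * (L + 1) = L * t := by
      have h2 : r = r % L * (L + 1) + L * t := by
        conv_lhs => rw [← hdm, ht]
        ring
      omega
    rw [h1, Nat.mul_div_cancel_left _ hL0, ht]
    omega
  have hnt : nt L r = r / L := by
    unfold nt nv
    rw [hnu]
    omega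
  have hrec : nt L r * L + r % L = r := by
    rw [hnt, mul_comm]
    exact hdm
  have hmono : StrictMono (tau L r) := by
    refine strictMono_nat_of_lt_succ fun i => ?_
    rcases tau_succ L r i with h | h <;> omega
  refine ⟨?_, ?_, ?_, tau_succ L r, fun i => ?_⟩
  · rw [hnt]
    exact Nat.div_pos (by nlinarith) hL0
  · unfold tau
    rw [zero_mul, Nat.zero_sub]
  · unfold tau
    have h1 : nt L r - nu L r = r % L := by
      rw [hnt, hnu]
      omega
    rw [h1]
    exact hrec
  · unfold ti
    have h1 : {j | tau L r j = tau L r i} = {i} := by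
      ext j
      constructor
      · intro h
        exact hmono.injective h
      · intro h
        rw [Set.mem_singleton_iff.1 h]
        rfl
    rw [h1, csInf_singleton]

end Pool.Agent.H74.PF
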